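import Pool.Agent.H79.EF.Defs

/-!
# Erdős–Frankl, `k = 3`: the finish condition `Fin5` for all `t` (helper89)
-/

set_option autoImplicit false

open Finset

namespace Pool.Agent.H89.EF

open Pool.Agent.H93.EF (Nb)
open Pool.Agent.H79.EF

/-! ## Elementary facts on `Nb` -/

theorem Nb_succ (m j : ℕ) : Nb m (j + 1) = Nb m j + (m.choose (j + 1) : ℝ) := by
  unfold Nb
  have e1 : ((j : ℤ) + 1 + 1).toNat = j + 2 := by omega
  have e2 : ((j : ℤ) + 1).toNat = j + 1 := by omega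
  rw [e1, e2, sum_range_succ _ (j + 1)]

theorem Nb_self (m j : ℕ) : Nb m j = Nb m ((j : ℤ) - 1) + (m.choose j : ℝ) := by
  unfold Nb
  have e1 : ((j : ℤ) + 1).toNat = j + 1 := by omega
  have e2 : ((j : ℤ) - 1 + 1).toNat = j := by omega
  rw [e1, e2, sum_range_succ _ j]

theorem Nb_neg (m : ℕ) {j : ℤ} (hj : j < 0) : Nb m j = 0 := by
  unfold Nb
  have e1 : (j + 1).toNat = 0 := by omega
  rw [e1, sum_range_zero]

theorem Nb_nonneg (m : ℕ) (j : ℤ) : 0 ≤ Nb m j := sum_nonneg (fun _ _ => Nat.cast_nonneg _)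

theorem Nb_pos (m j : ℕ) : 0 < Nb m j := by
  unfold Nb
  have e1 : ((j : ℤ) + 1).toNat = j + 1 := by omega
  rw [e1, sum_range_succ']
  have h : (0 : ℝ) ≤ ∑ i ∈ range j, (m.choose (i + 1) : ℝ) :=
    sum_nonneg (fun _ _ => Nat.cast_nonneg _)
  have : (m.choose 0 : ℝ) = 1 := by norm_num
  linarith

theorem Nb_pred_le (m j : ℕ) : Nb m ((j : ℤ) - 1) ≤ Nb m j := by
  rw [Nb_self]
  have : (0 : ℝ) ≤ (m.choose j : ℝ) := Nat.cast_nonneg _
  linarith

/-- the recursion -/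
theorem Nb_rec (m j : ℕ) :
    ((j : ℝ) + 1) * Nb m (j + 1) = (m + 1) * Nb m j - ((m : ℝ) - j) * Nb m ((j : ℤ) - 1) := by
  have h1 : ((j : ℝ) + 1) * (m.choose (j + 1) : ℝ) = ((m : ℝ) - j) * (m.choose j : ℝ) := by
    rcases Nat.lt_or_ge m j with h | h
    · rw [Nat.choose_eq_zero_of_lt h, Nat.choose_eq_zero_of_lt (by omega)]
      simp
    · have h2 := Nat.choose_succ_right_eq m j
      have h3 : ((m.choose (j + 1) * (j + 1) : ℕ) : ℝ) = ((m.choose j * (m - j) : ℕ) : ℝ) := by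
        rw [h2]
      push_cast [Nat.cast_sub h] at h3
      linarith
  rw [Nb_succ]
  have h2 := Nb_self m j
  have h3 : Nb m ((j : ℤ) - 1) = Nb m j - (m.choose j : ℝ) := by linarith
  rw [h3]
  linarith

/-- upper bound of the ratio -/
theorem ratio_le (m : ℕ) : ∀ j : ℕ, ((m : ℝ) - j + 1) * Nb m ((j : ℤ) - 1) ≤ j * Nb m j := by
  intro j
  induction j with
  | zero =>
    have : Nb m (((0 : ℕ) : ℤ) - 1) = 0 := Nb_neg m (by norm_num)
    rw [this]
    simp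
  | succ j ih =>
    have h1 := Nb_rec m j
    have h2 : ((j + 1 : ℕ) : ℤ) - 1 = j := by push_cast; ring
    rw [h2]
    push_cast
    have h3 := Nb_pred_le m j
    rw [h1]
    have h4 := Nb_nonneg m ((j : ℤ) - 1)
    nlinarith

/-- lower bound of the ratio, `s = 3` -/
theorem ratio_ge3 (m : ℕ) : ∀ j : ℕ, 4 * j ≤ m + 7 →
    (j : ℝ) * Nb m j ≤ ((m : ℝ) - j + 3) * Nb m ((j : ℤ) - 1) := by
  intro j
  induction j with
  | zero =>
    intro _
    have : Nb m (((0 : ℕ) : ℤ) - 1) = 0 := Nb_neg m (by norm_num)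
    rw [this]
    simp
  | succ j ih =>
    intro h
    have ih' := ih (by omega)
    have h1 := Nb_rec m j
    have h2 : ((j + 1 : ℕ) : ℤ) - 1 = j := by push_cast; ring
    rw [h2]
    push_cast
    rw [h1]
    have h3 : (4 : ℝ) * j ≤ m + 3 := by
      have : 4 * j ≤ m + 3 := by omega
      exact_mod_cast this
    have h4 := Nb_nonneg m ((j : ℤ) - 1)
    have h5 := Nb_pos m j
    have hj0 : (0 : ℝ) ≤ j := Nat.cast_nonneg _
    have h6 : (0 : ℝ) < (m : ℝ) - j + 3 := by linarith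
    -- (j - 1) a ≤ (m - j) b from j a ≤ (m - j + 3) b
    have h7 : ((j : ℝ) - 1) * Nb m j ≤ ((m : ℝ) - j) * Nb m ((j : ℤ) - 1) := by
      have h8 : ((m : ℝ) - j + 3) * (((j : ℝ) - 1) * Nb m j) ≤
          ((m : ℝ) - j + 3) * (((m : ℝ) - j) * Nb m ((j : ℤ) - 1)) := by
        rcases le_or_gt (0 : ℝ) ((m : ℝ) - j) with h9 | h9
        · have h10 := mul_le_mul_of_nonneg_left ih' h9
          nlinarith
        · exfalso
          have : (m : ℝ) < j := by linarith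
          have hm : m < j := by exact_mod_cast this
          have hj1 : j ≤ 1 := by omega
          have hj2 : j = 1 := by omega
          have hm0 : m = 0 := by omega
          subst hj2
          subst hm0
          norm_num at h3
      exact le_of_mul_le_mul_left h8 h6
    linarith

/-- lower bound of the ratio, `s = 4` -/
theorem ratio_ge4 (m : ℕ) : ∀ j : ℕ, 3 * j ≤ m + 7 →
    (j : ℝ) * Nb m j ≤ ((m : ℝ) - j + 4) * Nb m ((j : ℤ) - 1) := by
  intro j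
  induction j with
  | zero =>
    intro _
    have : Nb m (((0 : ℕ) : ℤ) - 1) = 0 := Nb_neg m (by norm_num)
    rw [this]
    simp
  | succ j ih =>
    intro h
    have ih' := ih (by omega)
    have h1 := Nb_rec m j
    have h2 : ((j + 1 : ℕ) : ℤ) - 1 = j := by push_cast; ring
    rw [h2]
    push_cast
    rw [h1]
    have h3 : (3 : ℝ) * j ≤ m + 4 := by
      have : 3 * j ≤ m + 4 := by omega
      exact_mod_cast this
    have h4 := Nb_nonneg m ((j : ℤ) - 1)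
    have h5 := Nb_pos m j
    have hj0 : (0 : ℝ) ≤ j := Nat.cast_nonneg _
    have h6 : (0 : ℝ) < (m : ℝ) - j + 4 := by
      have : (0 : ℝ) ≤ m := Nat.cast_nonneg _
      linarith
    have h7 : ((j : ℝ) - 2) * Nb m j ≤ ((m : ℝ) - j) * Nb m ((j : ℤ) - 1) := by
      rcases le_or_gt (0 : ℝ) ((m : ℝ) - j) with h9 | h9
      · have h8 : ((m : ℝ) - j + 4) * (((j : ℝ) - 2) * Nb m j) ≤
            ((m : ℝ) - j + 4) * (((m : ℝ) - j) * Nb m ((j : ℤ) - 1)) := by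
          have h10 := mul_le_mul_of_nonneg_left ih' h9
          nlinarith
        exact le_of_mul_le_mul_left h8 h6
      · have : (m : ℝ) < j := by linarith
        have hm : m < j := by exact_mod_cast this
        have hj2 : j ≤ 1 := by omega
        have hj3 : j = 1 := by omega
        have hm0 : m = 0 := by omega
        subst hj3
        subst hm0
        have e1 : Nb 0 (((1 : ℕ) : ℤ) - 1) = 1 := by unfold Nb; simp
        have e2 : Nb 0 ((1 : ℕ) : ℤ) = 1 := by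
          unfold Nb
          have : (((1 : ℕ) : ℤ) + 1).toNat = 2 := rfl
          rw [this, sum_range_succ, sum_range_succ, sum_range_zero]
          norm_num
        rw [e1, e2]
        norm_num
    linarith

/-! ## `HH` from the lower bound of the ratio -/

/-- the algebraic core: `(j+1) c = (m+1) a - (m-j) b` -/
theorem hh_core {m j a b c : ℝ} (hj : 0 ≤ j) (hmj : 2 * j + 1 ≤ m) (ha : 0 < a) (hb0 : 0 ≤ b)
    (hb : b ≤ a) (hrec : (j + 1) * c = (m + 1) * a - (m - j) * b)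
    (hlow : j * a ≤ (m - j + 4) * b)
    (hpoly : 89 * (j + 1) * (161 * m - 144 * j + 644) * (m - j + 4) ≤
      (m - j) * (72 * m - 55 * j + 288) ^ 2) :
    ((1 + 17 / 72) * a) ^ 3 ≤ (a + 17 / 72 * c) * (a + 17 / 72 * b) ^ 2 := by
  obtain ⟨u, hu⟩ : ∃ u, b = a * (1 - u) := ⟨1 - b / a, by field_simp; ring⟩
  have hu0 : 0 ≤ u := by
    by_contra h
    push Not at h
    nlinarith
  have hu1 : u ≤ 1 := by
    by_contra h
    push Not at h
    nlinarith
  have hD : 0 < m - j + 4 := by linarith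
  have hE : 0 < m - 2 * j + 4 := by linarith
  -- u ≤ E / D
  have huE : u * (m - j + 4) ≤ m - 2 * j + 4 := by
    have h1 : a * j ≤ a * ((m - j + 4) * (1 - u)) := by
      rw [hu] at hlow
      linarith
    have h2 := le_of_mul_le_mul_left h1 ha
    linarith
  set U : ℝ := (m - 2 * j + 4) / (m - j + 4) with hU
  have hUE : U * (m - j + 4) = m - 2 * j + 4 := by
    rw [hU]; field_simp
  have huU : u ≤ U := by
    rw [hU, le_div_iff₀ hD]; exact huE
  have hU1 : U ≤ 1 := by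
    rw [hU, div_le_one hD]; linarith
  have hGU : 0 ≤ (m - j) * (89 - 17 * U) ^ 2 - 89 * (j + 1) * (178 - 17 * U) := by
    have h1 : (m - j + 4) ^ 2 * ((m - j) * (89 - 17 * U) ^ 2 - 89 * (j + 1) * (178 - 17 * U)) =
        (m - j) * (89 * (m - j + 4) - 17 * (U * (m - j + 4))) ^ 2 -
          89 * (j + 1) * (178 * (m - j + 4) - 17 * (U * (m - j + 4))) * (m - j + 4) := by ring
    rw [hUE] at h1
    have h2 : 0 ≤ (m - j) * (89 * (m - j + 4) - 17 * (m - 2 * j + 4)) ^ 2 -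
          89 * (j + 1) * (178 * (m - j + 4) - 17 * (m - 2 * j + 4)) * (m - j + 4) := by
      have e1 : 89 * (m - j + 4) - 17 * (m - 2 * j + 4) = 72 * m - 55 * j + 288 := by ring
      have e2 : 178 * (m - j + 4) - 17 * (m - 2 * j + 4) = 161 * m - 144 * j + 644 := by ring
      rw [e1, e2]
      linarith
    rw [← h1] at h2
    exact nonneg_of_mul_nonneg_right h2 (by positivity)
  have hGu : 0 ≤ (m - j) * (89 - 17 * u) ^ 2 - 89 * (j + 1) * (178 - 17 * u) := by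
    have h1 : (m - j) * (89 - 17 * u) ^ 2 - 89 * (j + 1) * (178 - 17 * u) =
        ((m - j) * (89 - 17 * U) ^ 2 - 89 * (j + 1) * (178 - 17 * U)) +
          17 * (U - u) * ((m - j) * (178 - 17 * (u + U)) - 89 * (j + 1)) := by ring
    rw [h1]
    have h2 : 0 ≤ (m - j) * (178 - 17 * (u + U)) - 89 * (j + 1) := by
      have h3 : (144 : ℝ) ≤ 178 - 17 * (u + U) := by linarith
      nlinarith
    have h3 : 0 ≤ U - u := by linarith
    positivity
  -- conclusion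
  have hj1 : 0 < (j + 1) * 72 ^ 3 := by positivity
  have key : (j + 1) * 72 ^ 3 * ((a + 17 / 72 * c) * (a + 17 / 72 * b) ^ 2 -
      ((1 + 17 / 72) * a) ^ 3) =
      a ^ 3 * (17 * u * ((m - j) * (89 - 17 * u) ^ 2 - 89 * (j + 1) * (178 - 17 * u))) := by
    have e1 : (j + 1) * 72 ^ 3 * ((a + 17 / 72 * c) * (a + 17 / 72 * b) ^ 2 -
        ((1 + 17 / 72) * a) ^ 3) =
        (72 * (j + 1) * a + 17 * ((j + 1) * c)) * (72 * a + 17 * b) ^ 2 -
          (j + 1) * (89 * a) ^ 3 := by ring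
    rw [e1, hrec, hu]
    ring
  have h4 : 0 ≤ (j + 1) * 72 ^ 3 * ((a + 17 / 72 * c) * (a + 17 / 72 * b) ^ 2 -
      ((1 + 17 / 72) * a) ^ 3) := by
    rw [key]
    positivity
  have h5 := nonneg_of_mul_nonneg_right h4 hj1
  linarith

theorem HHj_of {m j : ℕ} (h3 : 3 * j ≤ m + 7) (h2 : 2 * j + 1 ≤ m)
    (hpoly : 89 * ((j : ℝ) + 1) * (161 * m - 144 * j + 644) * ((m : ℝ) - j + 4) ≤
      ((m : ℝ) - j) * (72 * m - 55 * j + 288) ^ 2) :
    HHj 3 (17 / 72) (Nb m) j := by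
  unfold HHj
  refine hh_core (m := m) (j := j) (Nat.cast_nonneg _) (by exact_mod_cast h2) (Nb_pos m j)
    (Nb_nonneg m _) (Nb_pred_le m j) (Nb_rec m j) (ratio_ge4 m j h3) hpoly

/-- the polynomial inequality for `t ≥ 60` -/
theorem poly_ok {m j : ℝ} (hj : 0 ≤ j) (h1 : 304 * j ≤ 85 * m + 60) (h2 : 95 ≤ m) :
    89 * (j + 1) * (161 * m - 144 * j + 644) * (m - j + 4) ≤
      (m - j) * (72 * m - 55 * j + 288) ^ 2 := by
  obtain ⟨v, hv⟩ : ∃ v, m = (304 * j - 60 + v) / 85 := ⟨85 * m + 60 - 304 * j, by ring⟩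
  have hv0 : 0 ≤ v := by rw [hv] at h1; linarith
  have hh : 0 ≤ 304 * j + v - 8135 := by rw [hv] at h2; linarith
  rw [hv]
  have hjv := mul_nonneg hj hv0
  have hjj := mul_nonneg hj hj
  have hvv := mul_nonneg hv0 hv0
  have hjh := mul_nonneg hj hh
  have hvh := mul_nonneg hv0 hh
  have hjjh := mul_nonneg hjj hh
  have hjvh := mul_nonneg hjv hh
  have hjjj := mul_nonneg hjj hj
  have hjjv := mul_nonneg hjj hv0
  have hjvv := mul_nonneg hj hvv
  have hvvv := mul_nonneg hvv hv0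
  nlinarith [mul_nonneg hvv hh]

theorem Nb_lc (m j : ℕ) (h : j ≤ m) :
    Nb m ((j : ℤ) - 1) * Nb m (j + 1) ≤ Nb m j * Nb m j := by
  have h1 := Nb_rec m j
  have h2 := ratio_le m j
  have h3 := Nb_pred_le m j
  have h4 := Nb_nonneg m ((j : ℤ) - 1)
  have h5 := Nb_pos m j
  have hj0 : (0 : ℝ) ≤ j := Nat.cast_nonneg _
  have hmj : (0 : ℝ) ≤ (m : ℝ) - j := by
    have : (j : ℝ) ≤ m := by exact_mod_cast h
    linarith
  have hj1 : (0 : ℝ) < (j : ℝ) + 1 := by linarith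
  set a := Nb m j
  set b := Nb m ((j : ℤ) - 1)
  have h6 : ((j : ℝ) + 1) * (b * Nb m (j + 1)) ≤ ((j : ℝ) + 1) * (a * a) := by
    have e1 : ((j : ℝ) + 1) * (b * Nb m (j + 1)) = b * (((j : ℝ) + 1) * Nb m (j + 1)) := by ring
    rw [e1, h1]
    -- (a - b) ((j+1) a - (m-j) b) ≥ 0
    have h7 : 0 ≤ (a - b) * (((j : ℝ) + 1) * a - ((m : ℝ) - j) * b) := by
      refine mul_nonneg (by linarith) ?_
      nlinarith
    nlinarith
  exact le_of_mul_le_mul_left h6 hj1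

/-- `Fin5` for `t ≥ 60` and any `α` with `0.6 t ≤ α ≤ 0.7 t` (roughly) -/
theorem fin5_gen {t α : ℕ} (ht : 60 ≤ t) (hαl : 3 * t ≤ 5 * α + 4) (hαu : 10 * α ≤ 7 * t) :
    ∃ c : ℕ, ∃ ρ : ℝ, Fin5 3 t α c (17 / 72) ρ := by
  classical
  set P : ℕ → Prop := fun c => 17 * Nb (t + 3 * c) (c + 1) ≤ 72 * Nb (t + 3 * c) c with hP
  have hex : P t := by
    have h1 := ratio_ge3 (t + 3 * t) (t + 1) (by omega)
    have e1 : ((t + 1 : ℕ) : ℤ) - 1 = t := by push_cast; ring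
    have e2 : ((t + 1 : ℕ) : ℤ) = (t : ℤ) + 1 := by push_cast; ring
    rw [e1, e2] at h1
    push_cast at h1
    have h2 := Nb_nonneg (t + 3 * t) ((t : ℤ) + 1)
    have h3 := Nb_pos (t + 3 * t) t
    have ht0 : (0 : ℝ) ≤ t := Nat.cast_nonneg _
    show 17 * Nb (t + 3 * t) (t + 1) ≤ 72 * Nb (t + 3 * t) t
    have h4 : ((t : ℝ) + 1) * (17 * Nb (t + 3 * t) (t + 1)) ≤
        ((t : ℝ) + 1) * (72 * Nb (t + 3 * t) t) := by nlinarith
    exact le_of_mul_le_mul_left h4 (by linarith)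
  set c := Nat.find ⟨t, hex⟩ with hc
  have hPc : P c := Nat.find_spec ⟨t, hex⟩
  have hct : c ≤ t := Nat.find_min' ⟨t, hex⟩ hex
  have hc1 : c ≠ 0 := by
    intro h0
    rw [h0] at hPc
    have h1 : 17 * Nb (t + 3 * 0) (((0 : ℕ) : ℤ) + 1) ≤ 72 * Nb (t + 3 * 0) ((0 : ℕ) : ℤ) := hPc
    rw [Nb_succ (t + 3 * 0) 0] at h1
    have e1 : Nb (t + 3 * 0) ((0 : ℕ) : ℤ) = 1 := by
      unfold Nb
      have : (((0 : ℕ) : ℤ) + 1).toNat = 1 := rfl
      rw [this, sum_range_one]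
      norm_num
    rw [e1] at h1
    have e2 : (t + 3 * 0).choose (0 + 1) = t := by simp
    rw [e2] at h1
    have : (60 : ℝ) ≤ t := by exact_mod_cast ht
    linarith
  obtain ⟨c', hc'⟩ : ∃ c', c = c' + 1 := ⟨c - 1, by omega⟩
  have hnP : ¬ P c' := Nat.find_min ⟨t, hex⟩ (by rw [← hc]; omega)
  -- upper bound of c
  have hcU : 38 * c + 1 ≤ 17 * t := by
    have h0 : 72 * Nb (t + 3 * c') c' < 17 * Nb (t + 3 * c') (c' + 1) := not_le.mp hnP
    have h1 := ratio_ge3 (t + 3 * c') (c' + 1) (by omega)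
    have e1 : ((c' + 1 : ℕ) : ℤ) - 1 = c' := by push_cast; ring
    have e2 : ((c' + 1 : ℕ) : ℤ) = (c' : ℤ) + 1 := by push_cast; ring
    rw [e1, e2] at h1
    push_cast at h1
    have h3 := Nb_pos (t + 3 * c') c'
    have hc0 : (0 : ℝ) ≤ c' := Nat.cast_nonneg _
    have ht0 : (0 : ℝ) ≤ t := Nat.cast_nonneg _
    have h4 : 0 < Nb (t + 3 * c') (c' + 1) := by linarith
    have h5 : (72 * ((c' : ℝ) + 1)) * Nb (t + 3 * c') (c' + 1) <
        (17 * ((t : ℝ) + 2 * c' + 2)) * Nb (t + 3 * c') (c' + 1) := by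
      have h6 : (0 : ℝ) < (t : ℝ) + 2 * c' + 2 := by linarith
      have h7 := mul_lt_mul_of_pos_left h0 h6
      nlinarith
    have h6 := lt_of_mul_lt_mul_right h5 h4.le
    have h7 : 38 * (c' + 1) < 17 * t := by
      have : (38 : ℝ) * ((c' : ℝ) + 1) < 17 * t := by linarith
      exact_mod_cast this
    omega
  -- lower bound of c
  have hcL : 17 * t ≤ 38 * c + 72 := by
    have h0 : 17 * Nb (t + 3 * c) (c + 1) ≤ 72 * Nb (t + 3 * c) c := hPc
    have h1 := ratio_le (t + 3 * c) (c + 1)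
    have e1 : ((c + 1 : ℕ) : ℤ) - 1 = c := by push_cast; ring
    have e2 : ((c + 1 : ℕ) : ℤ) = (c : ℤ) + 1 := by push_cast; ring
    rw [e1, e2] at h1
    push_cast at h1
    have h3 := Nb_pos (t + 3 * c) c
    have hc0 : (0 : ℝ) ≤ c := Nat.cast_nonneg _
    have h5 : (17 * ((t : ℝ) + 2 * c)) * Nb (t + 3 * c) c ≤
        (72 * ((c : ℝ) + 1)) * Nb (t + 3 * c) c := by
      have h7 := mul_le_mul_of_nonneg_left h0 (by linarith : (0 : ℝ) ≤ (c : ℝ) + 1)
      nlinarith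
    have h6 := le_of_mul_le_mul_right h5 h3
    have h7 : 17 * (t + 2 * c) ≤ 72 * (c + 1) := by exact_mod_cast h6
    omega
  -- the third condition
  have h3c : Nb (t + 3 * c) ((c : ℤ) - 1) ≤ 17 / 72 * Nb (t + 3 * c) c := by
    have h1 := ratio_le (t + 3 * c) c
    push_cast at h1
    have h3 := Nb_pos (t + 3 * c) c
    have hc0 : (0 : ℝ) ≤ c := Nat.cast_nonneg _
    have h4 : (38 : ℝ) * c + 1 ≤ 17 * t := by exact_mod_cast hcU
    have h5 : ((t : ℝ) + 2 * c + 1) * Nb (t + 3 * c) ((c : ℤ) - 1) ≤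
        ((t : ℝ) + 2 * c + 1) * (17 / 72 * Nb (t + 3 * c) c) := by nlinarith
    exact le_of_mul_le_mul_left h5 (by linarith)
  have hHH : ∀ j : ℕ, j ≤ c → HHj 3 (17 / 72) (Nb (t + α)) j := by
    intro j hj
    refine HHj_of (by omega) (by omega) ?_
    refine poly_ok (Nat.cast_nonneg _) ?_ ?_
    · have : 304 * j ≤ 85 * (t + α) + 60 := by omega
      exact_mod_cast this
    · have : 95 ≤ t + α := by omega
      exact_mod_cast this
  have hN0 := Nb_pos (t + α) c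
  have hN1 : 0 < Nb (t + α) (c + 1) := by
    have := Nb_pos (t + α) (c + 1)
    have e2 : ((c + 1 : ℕ) : ℤ) = (c : ℤ) + 1 := by push_cast; ring
    rwa [e2] at this
  have hdiv : Nb (t + α) c / (Nb (t + α) c / Nb (t + α) (c + 1)) = Nb (t + α) (c + 1) := by
    field_simp
  refine ⟨c, Nb (t + α) c / Nb (t + α) (c + 1), by omega, ?_, h3c, Or.inr ⟨?_, ?_, ?_, ?_, ?_, ?_⟩⟩
  · have h0 : 17 * Nb (t + 3 * c) (c + 1) ≤ 72 * Nb (t + 3 * c) c := hPc
    linarith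
  · positivity
  · rw [div_mul_cancel₀ _ hN1.ne']
  · have := Nb_lc (t + α) c (by omega)
    rw [div_mul_eq_mul_div, le_div_iff₀ hN1]
    exact this
  · rw [hdiv]
    have h0 : 17 * Nb (t + 3 * c) (c + 1) ≤ 72 * Nb (t + 3 * c) c := hPc
    linarith
  · intro j hj
    exact hHH j hj.le
  · rw [hdiv]
    exact hHH c le_rfl

theorem fin5_big {t : ℕ} (ht : 60 ≤ t) :
    ∃ c : ℕ, ∃ ρ : ℝ, Fin5 3 t (3 * t / 5) c (17 / 72) ρ :=
  fin5_gen ht (by omega) (by omega)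

/-- with the level chosen by helper84 -/
theorem fin5_84 {t : ℕ} (ht : 60 ≤ t) :
    ∃ c : ℕ, ∃ ρ : ℝ, Fin5 3 t (7 * (t - 1) / 11 - 1) c (17 / 72) ρ :=
  fin5_gen ht (by omega) (by omega)

/-! ## Small `t`: a kernel computation -/

/-- `(C(n,j), Σ_{i ≤ j} C(n,i))` -/
def bs (n : ℕ) : ℕ → ℕ × ℕ
  | 0 => (1, 1)
  | j + 1 => ((bs n j).1 * (n - j) / (j + 1), (bs n j).2 + (bs n j).1 * (n - j) / (j + 1))

/-- `Σ_{i < j} C(n,i)` -/
def bp (n : ℕ) : ℕ → ℕ
  | 0 => 0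
  | j + 1 => (bs n j).2

theorem bs_fst (n j : ℕ) : (bs n j).1 = n.choose j := by
  induction j with
  | zero => simp [bs]
  | succ j ih =>
    show (bs n j).1 * (n - j) / (j + 1) = n.choose (j + 1)
    rw [ih, ← Nat.choose_succ_right_eq, Nat.mul_div_cancel _ (Nat.succ_pos j)]

theorem bs_snd (n j : ℕ) : (((bs n j).2 : ℕ) : ℝ) = Nb n j := by
  induction j with
  | zero =>
    have : Nb n ((0 : ℕ) : ℤ) = 1 := by
      unfold Nb
      have : (((0 : ℕ) : ℤ) + 1).toNat = 1 := rfl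
      rw [this, sum_range_one]
      norm_num
    rw [this]
    simp [bs]
  | succ j ih =>
    have e2 : ((j + 1 : ℕ) : ℤ) = (j : ℤ) + 1 := by push_cast; ring
    rw [e2, Nb_succ, ← ih, ← bs_fst]
    show (((bs n j).2 + (bs n j).1 * (n - j) / (j + 1) : ℕ) : ℝ) = _
    push_cast
    rfl

theorem bs_succ (n j : ℕ) : (((bs n (j + 1)).2 : ℕ) : ℝ) = Nb n ((j : ℤ) + 1) := by
  rw [bs_snd]
  have e2 : ((j + 1 : ℕ) : ℤ) = (j : ℤ) + 1 := by push_cast; ring
  rw [e2]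

theorem bp_eq (n j : ℕ) : ((bp n j : ℕ) : ℝ) = Nb n ((j : ℤ) - 1) := by
  cases j with
  | zero =>
    have : Nb n (((0 : ℕ) : ℤ) - 1) = 0 := Nb_neg n (by norm_num)
    rw [this]
    simp [bp]
  | succ j =>
    have e1 : ((j + 1 : ℕ) : ℤ) - 1 = j := by push_cast; ring
    rw [e1, ← bs_snd]
    rfl

/-- level up to which the first stage goes -/
def al1 (t : ℕ) : ℕ := if t ≤ 4 then 0 else if t ≤ 6 then 2 else if t ≤ 42 then t / 2 else 3 * t / 5

/-- critical level -/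
def cl : List ℕ := [0, 0, 0, 0, 1, 1, 2, 2, 3, 3, 4, 4, 5, 5, 6, 6, 6, 7, 7, 8, 8, 9, 9, 10, 10,
  10, 11, 11, 12, 12, 13, 13, 14, 14, 15, 15, 15, 16, 16, 17, 17, 18, 18, 19, 19, 19, 20, 20, 21,
  21, 22, 22, 23, 23, 23, 24, 24, 25, 25, 26]

/-- the check of `Fin5` with `V2 = 2 N(c) / ρ` -/
def chk (t α c V2 : ℕ) : Bool :=
  decide (α ≤ 3 * c) && decide (17 * (bs (t + 3 * c) (c + 1)).2 ≤ 72 * (bs (t + 3 * c) c).2) &&
  decide (72 * bp (t + 3 * c) c ≤ 17 * (bs (t + 3 * c) c).2) &&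
  (decide (α = 3 * c) || (decide (0 < V2) && decide (2 * (bs (t + α) (c + 1)).2 ≤ V2) &&
    decide (bp (t + α) c * V2 ≤ 2 * (bs (t + α) c).2 ^ 2) &&
    decide (17 * (2 * (bs (t + 3 * c) (c + 1)).2 + V2) ≤
      2 * (72 * (bs (t + 3 * c) c).2 + 17 * (bs (t + α) (c + 1)).2)) &&
    decide (∀ j < c, (89 * (bs (t + α) j).2) ^ 3 ≤
      (72 * (bs (t + α) j).2 + 17 * (bs (t + α) (j + 1)).2) *
        (72 * (bs (t + α) j).2 + 17 * bp (t + α) j) ^ 2) &&
    decide (2 * (89 * (bs (t + α) c).2) ^ 3 ≤ (144 * (bs (t + α) c).2 + 17 * V2) *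
      (72 * (bs (t + α) c).2 + 17 * bp (t + α) c) ^ 2)))

/-- the choice of `V2` -/
def V2 (t α c : ℕ) : ℕ :=
  min (2 * (72 * (bs (t + 3 * c) c).2 + 17 * (bs (t + α) (c + 1)).2 -
    17 * (bs (t + 3 * c) (c + 1)).2) / 17) (2 * (bs (t + α) c).2 ^ 2 / bp (t + α) c)

theorem fin5_of_chk {t α c v : ℕ} (h : chk t α c v = true) :
    ∃ ρ : ℝ, Fin5 3 t α c (17 / 72) ρ := by
  unfold chk at h
  simp only [Bool.and_eq_true, Bool.or_eq_true, decide_eq_true_eq] at h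
  obtain ⟨⟨⟨h1, h2⟩, h3⟩, h4⟩ := h
  have g2 : (17 : ℝ) * Nb (t + 3 * c) ((c : ℤ) + 1) ≤ 72 * Nb (t + 3 * c) c := by
    rw [← bs_succ, ← bs_snd]; exact_mod_cast h2
  have g3 : (72 : ℝ) * Nb (t + 3 * c) ((c : ℤ) - 1) ≤ 17 * Nb (t + 3 * c) c := by
    rw [← bp_eq, ← bs_snd]; exact_mod_cast h3
  have hN0 := Nb_pos (t + α) c
  rcases h4 with h4 | h4
  · exact ⟨1, h1, by linarith, by linarith, Or.inl h4⟩
  · obtain ⟨⟨⟨⟨⟨h5, h6⟩, h7⟩, h8⟩, h9⟩, h10⟩ := h4
    have g5 : (0 : ℝ) < v := by exact_mod_cast h5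
    have g6 : 2 * Nb (t + α) ((c : ℤ) + 1) ≤ v := by
      rw [← bs_succ]; exact_mod_cast h6
    have g7 : Nb (t + α) ((c : ℤ) - 1) * v ≤ 2 * Nb (t + α) c ^ 2 := by
      rw [← bp_eq, ← bs_snd]; exact_mod_cast h7
    have g8 : 17 * (2 * Nb (t + 3 * c) ((c : ℤ) + 1) + v) ≤
        2 * (72 * Nb (t + 3 * c) c + 17 * Nb (t + α) ((c : ℤ) + 1)) := by
      rw [← bs_succ, ← bs_succ, ← bs_snd]; exact_mod_cast h8
    have g9 : ∀ j < c, (89 * Nb (t + α) j) ^ 3 ≤
        (72 * Nb (t + α) j + 17 * Nb (t + α) ((j : ℤ) + 1)) *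
          (72 * Nb (t + α) j + 17 * Nb (t + α) ((j : ℤ) - 1)) ^ 2 := by
      intro j hj
      rw [← bs_succ, ← bs_snd, ← bp_eq]
      exact_mod_cast h9 j hj
    have g10 : 2 * (89 * Nb (t + α) c) ^ 3 ≤ (144 * Nb (t + α) c + 17 * v) *
        (72 * Nb (t + α) c + 17 * Nb (t + α) ((c : ℤ) - 1)) ^ 2 := by
      rw [← bs_snd, ← bp_eq]
      exact_mod_cast h10
    have hdiv : Nb (t + α) c / (2 * Nb (t + α) c / v) = v / 2 := by
      field_simp
    refine ⟨2 * Nb (t + α) c / v, h1, by linarith, by linarith,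
      Or.inr ⟨by positivity, ?_, ?_, ?_, ?_, ?_⟩⟩
    · rw [div_mul_eq_mul_div, div_le_iff₀ g5]
      nlinarith
    · rw [div_mul_eq_mul_div, le_div_iff₀ g5]
      nlinarith
    · rw [hdiv]
      linarith
    · intro j hj
      have := g9 j hj
      unfold HHj
      have e1 : ((1 + 17 / 72) * Nb (t + α) j) ^ 3 = (89 * Nb (t + α) j) ^ 3 / 72 ^ 3 := by ring
      have e2 : (Nb (t + α) j + 17 / 72 * Nb (t + α) ((j : ℤ) + 1)) *
          (Nb (t + α) j + 17 / 72 * Nb (t + α) ((j : ℤ) - 1)) ^ (3 - 1) =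
          ((72 * Nb (t + α) j + 17 * Nb (t + α) ((j : ℤ) + 1)) *
          (72 * Nb (t + α) j + 17 * Nb (t + α) ((j : ℤ) - 1)) ^ 2) / 72 ^ 3 := by ring
      rw [e1, e2]
      exact div_le_div_of_nonneg_right this (by norm_num)
    · rw [hdiv]
      have e1 : ((1 + 17 / 72) * Nb (t + α) c) ^ 3 = (2 * (89 * Nb (t + α) c) ^ 3) / (2 * 72 ^ 3) := by
        ring
      have e2 : (Nb (t + α) c + 17 / 72 * ((v : ℝ) / 2)) *
          (Nb (t + α) c + 17 / 72 * Nb (t + α) ((c : ℤ) - 1)) ^ (3 - 1) =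
          ((144 * Nb (t + α) c + 17 * v) *
          (72 * Nb (t + α) c + 17 * Nb (t + α) ((c : ℤ) - 1)) ^ 2) / (2 * 72 ^ 3) := by ring
      rw [e1, e2]
      exact div_le_div_of_nonneg_right g10 (by norm_num)

theorem chk_small : ∀ t < 60, chk t (al1 t) (cl.getD t 0) (V2 t (al1 t) (cl.getD t 0)) = true := by
  decide +kernel

theorem fin5_all (t : ℕ) : ∃ c : ℕ, ∃ ρ : ℝ, Fin5 3 t (al1 t) c (17 / 72) ρ := by
  rcases Nat.lt_or_ge t 60 with h | h
  · exact ⟨_, fin5_of_chk (chk_small t h)⟩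
  · have e : al1 t = 3 * t / 5 := by
      unfold al1
      rw [if_neg (by omega), if_neg (by omega), if_neg (by omega)]
    rw [e]
    exact fin5_big h

end Pool.Agent.H89.EF
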